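import Pool.Agent.H72.BF.Targets2

/-!
Module BFF of the board bf_modules: the Baker-Feldman theorem in the residue field.
-/

open Finset Filter
open Pool.Agent.H72.BF

namespace Pool.Agent.H84.BF

theorem algB_mono {δ δ' : ℕ} {A A' : ℝ} {x : ℂ} (h : AlgB δ A x) (hδ : δ ≤ δ') (hA : A ≤ A') :
    AlgB δ' A' x := by
  obtain ⟨p, h1, h2, h3, h4⟩ := h
  exact ⟨p, h1, h2.trans hδ, fun i => (h3 i).trans hA, h4⟩

theorem bff (hL : T_LFT) : T_BFF := by
  classical
  intro hBF n lam hli halg H P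
  rw [Fintype.linearIndependent_iff]
  intro g hg
  have halg2 : ∀ i, IsAlgebraic P.kk ((g i : P.kb) : P.F) := fun i =>
    mem_algebraicClosure_iff.1 (g i).2
  choose δ0 c0 z hz hev hal using fun i => hL H P _ (halg2 i)
  set δ : ℕ := Finset.univ.sup δ0 with hδ
  set c : ℕ := Finset.univ.sup c0 + 1 with hc
  have hal2 : ∀ i j, AlgB δ (H j ^ c) (z i j) := by
    intro i j
    refine algB_mono (hal i j) (Finset.le_sup (f := δ0) (Finset.mem_univ i)) ?_
    apply pow_le_pow_right₀ (by linarith [P.hH j])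
    exact (Finset.le_sup (f := c0) (Finset.mem_univ i)).trans (Nat.le_succ _)
  obtain ⟨C, hC, hmain⟩ := hBF n lam hli halg δ
  -- the linear form
  set w : ℕ → ℂ := z 0 + ∑ i : Fin n, z i.succ * (fun _ => lam i) with hw
  have hwO : w ∈ P.O := P.O.add_mem (hz 0) (P.O.sum_mem fun i _ =>
    P.O.mul_mem (hz _) (P.const_mem _))
  have hwev : P.ev w = 0 := by
    rw [hw, P.ev_add (hz 0) (P.O.sum_mem fun i _ => P.O.mul_mem (hz _) (P.const_mem _)),
      P.ev_sum _ _ (fun i _ => P.O.mul_mem (hz _) (P.const_mem _))]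
    rw [Fin.sum_univ_succ] at hg
    rw [← hg]
    congr 1
    · rw [hev 0, Fin.cons_zero, Algebra.smul_def, mul_one]
      rfl
    · refine Finset.sum_congr rfl fun i _ => ?_
      rw [P.ev_mul (hz _) (P.const_mem _), hev i.succ, Fin.cons_succ, Algebra.smul_def]
      rfl
  rw [P.ev_eq_zero hwO] at hwev
  set c' : ℕ := ⌈(c : ℝ) * C⌉₊ with hc'
  have hzero : ∀ᶠ j in (hyperfilter ℕ : Filter ℕ), ∀ i, z i j = 0 := by
    filter_upwards [hwev (c' + 1)] with j hj
    by_contra hne
    have hH2 : 2 ≤ H j := P.hH j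
    have hH0 : 0 < H j := by linarith
    have h1 : (2 : ℝ) ≤ H j ^ c := by
      calc (2 : ℝ) ≤ H j := hH2
        _ = H j ^ 1 := (pow_one _).symm
        _ ≤ H j ^ c := pow_le_pow_right₀ (by linarith) (by omega)
    have h2 := hmain (H j ^ c) h1 (z 0 j) (fun i => z i.succ j) (hal2 0 j)
      (fun i => hal2 i.succ j) (by
        rintro ⟨h3, h4⟩
        apply hne
        intro i
        refine Fin.cases h3 (fun i => ?_) i
        exact congrFun h4 i)
    have h3 : z 0 j + ∑ i : Fin n, z i.succ j * lam i = w j := by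
      rw [hw]
      simp [Finset.sum_apply]
    rw [h3] at h2
    have h4 : (H j ^ c) ^ C ≤ H j ^ c' := by
      rw [← Real.rpow_natCast, ← Real.rpow_mul hH0.le, ← Real.rpow_natCast (H j) c']
      apply Real.rpow_le_rpow_of_exponent_le (by linarith)
      exact Nat.le_ceil _
    have h5 : 1 ≤ H j ^ c' * ‖w j‖ :=
      h2.trans (mul_le_mul_of_nonneg_right h4 (norm_nonneg _))
    have h6 : ‖w j‖ * H j ^ (c' + 1) = (H j ^ c' * ‖w j‖) * H j := by ring
    rw [h6] at hj
    nlinarith
  intro i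
  have h1 := P.ev_congr (hz i) (w := 0) (by
    filter_upwards [hzero] with j hj
    rw [hj i]
    rfl)
  have h2 : ((g i : P.kb) : P.F) = 0 := by
    rw [← hev i, h1.1, P.ev_zero]
  exact Subtype.ext h2

end Pool.Agent.H84.BF
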