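import Pool.Agent.H72.BF.Targets2

/-!
Module MNR of the board bf_modules: linearly independent integer vectors stay independent.
-/

open Finset Filter
open Pool.Agent.H72.BF

namespace Pool.Agent.H84.BF

theorem det_gram_ne_zero {r : ℕ} {ι : Type} [Fintype ι] (A : Matrix (Fin r) ι ℚ)
    (h : LinearIndependent ℚ (fun s : Fin r => A s)) : (A * A.transpose).det ≠ 0 := by
  intro hdet
  obtain ⟨v, hv, hv0⟩ := Matrix.exists_vecMul_eq_zero_iff.2 hdet
  rw [← Matrix.vecMul_vecMul, Matrix.vecMul_transpose] at hv0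
  have h1 : (Matrix.vecMul v A) ⬝ᵥ (Matrix.vecMul v A) = 0 := by
    rw [← Matrix.dotProduct_mulVec, hv0]
    simp
  rw [dotProduct_self_eq_zero] at h1
  apply hv
  rw [Fintype.linearIndependent_iff] at h
  funext s
  refine h v ?_ s
  funext i
  have h3 := congrFun h1 i
  simpa [Matrix.vecMul, dotProduct, Finset.sum_apply] using h3

theorem mnr : T_MNR := by
  classical
  intro H P r ι _ a hb hli
  let AO : Matrix (Fin r) ι P.O := Matrix.of fun s i => ⟨fun j => (a j s i : ℂ), hb s i⟩
  let AZ : ℕ → Matrix (Fin r) ι ℤ := fun j => Matrix.of (a j)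
  let AF : Matrix (Fin r) ι P.F := Matrix.of fun s i => P.evZ (fun j => a j s i)
  set D : P.O := (AO * AO.transpose).det with hD
  have hDj : (D : ℕ → ℂ) = fun j => (((AZ j * (AZ j).transpose).det : ℤ) : ℂ) := by
    funext j
    have h1 := ((Pi.evalRingHom (fun _ : ℕ => ℂ) j).comp P.O.subtype).map_det
      (AO * AO.transpose)
    have h2 := (Int.castRingHom ℂ).map_det (AZ j * (AZ j).transpose)
    have h3 : ((Pi.evalRingHom (fun _ : ℕ => ℂ) j).comp P.O.subtype).mapMatrix
        (AO * AO.transpose) = (Int.castRingHom ℂ).mapMatrix (AZ j * (AZ j).transpose) := by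
      rw [RingHom.mapMatrix_apply, RingHom.mapMatrix_apply, Matrix.map_mul, Matrix.map_mul]
      congr 1
    rw [h3, ← h2] at h1
    exact h1
  have hDbd : P.Bd (fun j => (AZ j * (AZ j).transpose).det) := by
    rw [Pkg.Bd, ← hDj]
    exact D.2
  have hDne : ∀ j, (AZ j * (AZ j).transpose).det ≠ 0 := by
    intro j h0
    have h1 := det_gram_ne_zero (Matrix.of fun (s : Fin r) (i : ι) => (a j s i : ℚ)) (hli j)
    apply h1
    have h2 := (Int.castRingHom ℚ).map_det (AZ j * (AZ j).transpose)
    rw [h0, map_zero, RingHom.mapMatrix_apply, Matrix.map_mul] at h2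
    rw [h2]
    rfl
  have hπ : P.π D = P.evZ (fun j => (AZ j * (AZ j).transpose).det) := by
    rw [Pkg.evZ, P.ev_of_mem hDbd]
    congr 1
    apply Subtype.ext
    exact hDj
  have hFdet : (AF * AF.transpose).det ≠ 0 := by
    have h1 : P.π D = (AF * AF.transpose).det := by
      rw [hD, RingHom.map_det, RingHom.mapMatrix_apply, Matrix.map_mul]
      have h2 : AO.map P.π = AF := by
        ext s i
        change P.π ⟨_, _⟩ = P.evZ _
        rw [Pkg.evZ, P.ev_of_mem (hb s i)]
      have h3 : AO.transpose.map P.π = AF.transpose := by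
        rw [← h2]
        rfl
      rw [h2, h3]
    rw [← h1, hπ]
    exact P.evZ_ne_zero hDbd hDne
  rw [Fintype.linearIndependent_iff]
  intro g hg
  have h1 : Matrix.vecMul g AF = 0 := by
    funext i
    have h2 := congrFun hg i
    simpa [Matrix.vecMul, dotProduct, Finset.sum_apply, AF] using h2
  have h2 : Matrix.vecMul g (AF * AF.transpose) = 0 := by
    rw [← Matrix.vecMul_vecMul, h1]
    simp
  have h3 : g = 0 := by
    by_contra hne
    exact hFdet (Matrix.exists_vecMul_eq_zero_iff.1 ⟨g, hne, h2⟩)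
  intro s
  rw [h3]
  rfl

end Pool.Agent.H84.BF
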