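import Pool.Agent.H84.BF.SUP

/-!
Module STEP of the board bf_modules: one extrapolation step.
-/

open Polynomial Finset
open Pool.Agent.H72.BF

namespace Pool.Agent.H84.BF

theorem ee_scale (N T L0 : ℕ) (ρ σ : ℝ) (hN : 1 ≤ N) (hT : 1 ≤ T) (hρ : 0 ≤ ρ) (hσ : 0 ≤ σ)
    (h16 : ρ ≤ 16 * σ) : EE N T L0 ρ ≤ 16 * EE N T L0 σ := by
  have hN' : (1 : ℝ) ≤ N := by exact_mod_cast hN
  have hT' : (1 : ℝ) ≤ T := by exact_mod_cast hT
  have h1 : 0 ≤ Real.log N := Real.log_nonneg hN'
  have h2 : 0 ≤ Real.log T := Real.log_nonneg hT'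
  have h3 : 0 ≤ Real.log (σ + 2) := Real.log_nonneg (by linarith)
  have h4 : Real.log (ρ + 2) ≤ 3 + Real.log (σ + 2) := by
    have h5 : Real.log (ρ + 2) ≤ Real.log (16 * (σ + 2)) :=
      Real.log_le_log (by linarith) (by linarith)
    have h6 : Real.log (16 * (σ + 2)) = Real.log 16 + Real.log (σ + 2) :=
      Real.log_mul (by norm_num) (by linarith)
    have h7 : Real.log 16 = 4 * Real.log 2 := by
      rw [show (16 : ℝ) = 2 ^ (4 : ℕ) by norm_num, Real.log_pow]
      norm_num
    have h8 := Real.log_two_lt_d9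
    linarith
  have hL : (0 : ℝ) ≤ L0 := Nat.cast_nonneg _
  have a1 : 0 ≤ (T : ℝ) * (1 + Real.log T + Real.log N) := by positivity
  have a2 : ((L0 : ℝ) + 1) * (1 + Real.log (ρ + 2)) ≤
      16 * ((L0 + 1) * (1 + Real.log (σ + 2))) := by
    have : 1 + Real.log (ρ + 2) ≤ 16 * (1 + Real.log (σ + 2)) := by linarith
    nlinarith
  have a3 : (N : ℝ) * ρ ≤ 16 * (N * σ) := by nlinarith
  unfold EE
  linarith

theorem step (hS : T_SUP) (hC : T_CMP) (hI : T_ITD) (hSc : T_SCH) (hL : T_LQ) (hR : T_ROOT)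
    (hD : T_DIF) : T_STEP := by
  intro n lam hlam δ cp hcp
  obtain ⟨c1, hc1, H1⟩ := hS n lam δ
  obtain ⟨c2, hc2, H2⟩ := hC n lam δ
  obtain ⟨k, c3, hc3, H3⟩ := hL n lam hlam δ
  refine ⟨k * cp + 16 * c3 + cp + 16 * c1 + 3, ?_, ?_⟩
  · have : 0 ≤ (k : ℝ) * cp := by positivity
    linarith
  intro N τ T' T0 L0 σ hN hτ hT hσ hK
  have hT0 : 1 ≤ T0 := by omega
  have hσ' : (1 : ℝ) ≤ σ := by exact_mod_cast hσ
  have hτ' : (1 : ℝ) ≤ τ := by exact_mod_cast hτ
  have hN' : (1 : ℝ) ≤ N := by exact_mod_cast hN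
  obtain ⟨f1, f2, f3, f4, f5⟩ := ee_facts N T0 L0 σ hN hT0 (by linarith)
  set E := EE N T0 L0 σ with hE
  set Lam : ℝ := ∑ j, ‖eta lam j‖ with hLam
  have hLam1 : 1 ≤ Lam := by
    have : ‖eta lam 0‖ ≤ Lam := Finset.single_le_sum (f := fun j => ‖eta lam j‖)
      (fun j _ => norm_nonneg _) (Finset.mem_univ _)
    have h2 : ‖eta lam 0‖ = 1 := by
      have h3 : eta lam 0 = 1 := rfl
      rw [h3, norm_one]
    linarith
  set Z' : ℝ := (k * cp + 16 * c3 + cp + 16 * c2) * E + τ * (2 + Lam) + 19 * (τ * σ) with hZ'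
  have hk0 : 0 ≤ (k : ℝ) * cp := by positivity
  have hZ'0 : 0 ≤ Z' := by positivity
  refine ⟨Z' + 2 * N * σ + 2, ?_⟩
  intro h B hh hB hv p hp hq m hm s' hs'
  have hh' : (1 : ℝ) ≤ h := by exact_mod_cast hh
  set v : ℝ := ‖B.val lam / B.b 0‖ with hvd
  have hv0 : 0 ≤ v := norm_nonneg _
  set P : ℝ := Real.exp (cp * (h * E)) with hP
  have hP0 : 0 < P := Real.exp_pos _
  have hP1 : 1 ≤ P := Real.one_le_exp (by positivity)
  have hNs : (0 : ℝ) ≤ N * σ := by positivity
  have hv1 : v ≤ 1 := by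
    refine hv.trans (Real.exp_le_one_iff.2 ?_)
    have : 0 ≤ (Z' + 2 * N * σ + 2) * h := by positivity
    linarith
  have hvN : (N : ℝ) * (2 * σ * h) * v ≤ 1 := by
    have g1 : (h : ℝ) ≤ Real.exp h := by linarith [Real.add_one_le_exp (h : ℝ)]
    have g2 : (2 * N * σ : ℝ) ≤ Real.exp (2 * N * σ) := by
      linarith [Real.add_one_le_exp (2 * N * σ : ℝ)]
    have g3 : Real.exp (2 * N * σ : ℝ) ≤ Real.exp (2 * N * σ * h) := by
      apply Real.exp_le_exp.2
      have : 0 ≤ (2 * N * σ : ℝ) := by positivity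
      exact le_mul_of_one_le_right this hh'
    calc (N : ℝ) * (2 * σ * h) * v = (2 * N * σ) * h * v := by ring
      _ ≤ Real.exp (2 * N * σ * h) * Real.exp h * Real.exp (-((Z' + 2 * N * σ + 2) * h)) := by
          gcongr
          exact g2.trans g3
      _ = Real.exp (-(Z' + 1) * h) := by
          rw [← Real.exp_add, ← Real.exp_add]
          congr 1
          ring
      _ ≤ 1 := by
          apply Real.exp_le_one_iff.2
          have : 0 ≤ (Z' + 1) * h := by positivity
          linarith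
  -- bounds of the cost
  have e2 : EE N T0 L0 (2 * σ) ≤ 16 * E :=
    ee_scale N T0 L0 _ _ hN hT0 (by positivity) (by positivity) (by linarith)
  have e16 : EE N T0 L0 (16 * σ) ≤ 16 * E :=
    ee_scale N T0 L0 _ _ hN hT0 (by positivity) (by positivity) (by linarith)
  -- comparison
  set eps0 : ℝ := P * Real.exp (16 * c2 * (h * E)) * v with heps0
  have heps0n : 0 ≤ eps0 := by positivity
  have hcmp : ∀ (m' : Fin (n + 1) → ℕ), (∀ j, m' j ≤ T0) → ∀ s : ℕ, (s : ℝ) ≤ 2 * σ * h →
      ‖Phi lam B p m' s - qq lam B p m' s‖ ≤ eps0 := by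
    intro m' hm' s hs
    refine (H2 h B hh hB N T0 L0 (2 * σ) hN hT0 (by positivity) p P hp m' hm' s hs hvN).trans ?_
    have h4 : c2 * (h * EE N T0 L0 (2 * σ)) ≤ 16 * c2 * (h * E) := by
      calc c2 * (h * EE N T0 L0 (2 * σ)) ≤ c2 * (h * (16 * E)) := by gcongr
        _ = 16 * c2 * (h * E) := by ring
    exact mul_le_mul_of_nonneg_right (mul_le_mul_of_nonneg_left (Real.exp_le_exp.2 h4) hP0.le) hv0
  -- the derivative bounds
  set eps : ℝ := (Real.exp (2 * h) * Lam) ^ τ * eps0 with heps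
  have hepsn : 0 ≤ eps := by positivity
  have hb0 : ‖B.b 0‖⁻¹ ≤ Real.exp (2 * h) := by
    have g1 := (hR δ (Real.exp h) (B.b 0) (Real.one_le_exp (by positivity)) (hB.hb 0)).2 hB.h0
    have g2 : (2 : ℝ) ≤ Real.exp h := by
      have := Real.add_one_le_exp (h : ℝ)
      linarith
    have g3 : (1 : ℝ) ≤ Real.exp h := by linarith
    calc ‖B.b 0‖⁻¹ ≤ 1 + Real.exp h := g1
      _ ≤ Real.exp h * Real.exp h := by nlinarith only [g2, g3]
      _ = Real.exp (2 * h) := by
          rw [← Real.exp_add]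
          congr 1
          ring
  have hder : ∀ s < σ * h, ∀ r < τ, ‖iteratedDeriv r (Phi lam B p m) (s : ℂ)‖ ≤ eps := by
    intro s hs r hr
    have hs2 : (s : ℝ) ≤ 2 * σ * h := by
      have h1 : (s : ℝ) ≤ σ * h := by exact_mod_cast hs.le
      have h2 : (0 : ℝ) ≤ σ * h := by positivity
      linarith only [h1, h2]
    have g1 := hI n N h L0 lam B p hB.h0 r m s eps0 heps0n (by
      intro i hi
      have hmi : ∀ j, (m + i) j ≤ T' + τ := by
        intro j
        have h1 : i j ≤ r := by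
          rw [← hi]
          exact Finset.single_le_sum (f := i) (fun j _ => Nat.zero_le _) (Finset.mem_univ j)
        have h2 := hm j
        simp only [Pi.add_apply]
        omega
      have hz := hq (m + i) hmi s hs
      have h3 := hcmp (m + i) (fun j => (hmi j).trans hT) s hs2
      rwa [hz, sub_zero] at h3)
    refine g1.trans ?_
    rw [heps]
    gcongr ?_ * eps0
    have g2 : 1 ≤ Real.exp (2 * h) * Lam := by
      exact one_le_mul_of_one_le_of_one_le (Real.one_le_exp (by positivity)) hLam1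
    calc (‖B.b 0‖⁻¹ * ∑ j, ‖eta lam j‖) ^ r ≤ (Real.exp (2 * h) * Lam) ^ r := by
          gcongr
      _ ≤ (Real.exp (2 * h) * Lam) ^ τ := pow_le_pow_right₀ g2 hr.le
  -- the growth bound
  set K1 : ℝ := P * Real.exp (16 * c1 * (h * E)) with hK1
  have hgr : ∀ z : ℂ, ‖z‖ ≤ 16 * ((σ * h : ℕ) : ℝ) → ‖Phi lam B p m z‖ ≤ K1 := by
    intro z hz
    refine (H1 h B hh hB hv1 N T0 L0 (16 * σ) hN hT0 (by positivity) p P hp m
      (fun j => (hm j).trans (by omega)) z (by push_cast at hz; linarith)).trans ?_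
    have h4 : c1 * (h * EE N T0 L0 (16 * σ)) ≤ 16 * c1 * (h * E) := by
      calc c1 * (h * EE N T0 L0 (16 * σ)) ≤ c1 * (h * (16 * E)) := by gcongr
        _ = 16 * c1 * (h * E) := by ring
    exact mul_le_mul_of_nonneg_left (Real.exp_le_exp.2 h4) hP0.le
  have hdiff : Differentiable ℂ (Phi lam B p m) := fun z =>
    (hD n N h L0 lam B p hB.h0 m z).differentiableAt
  have hS1 : 1 ≤ σ * h := Nat.mul_pos hσ hh
  have hsr : (s' : ℝ) ≤ 2 * σ * h := by exact_mod_cast hs'.le
  have hsch := hSc (Phi lam B p m) τ (σ * h) eps K1 hdiff hτ hS1 hepsn (by positivity) hder hgr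
    (s' : ℂ) (by
      rw [Complex.norm_natCast]
      push_cast
      linarith)
  by_contra hne
  have hlq := H3 h B hh hB N T0 L0 (2 * σ) hN hT0 (by linarith) p P hP1 hp m s'
    (fun j => (hm j).trans (by omega)) hsr hne
  have hqn : ‖qq lam B p m s'‖ ≤ ‖Phi lam B p m s'‖ + eps0 := by
    have h1 := hcmp m (fun j => (hm j).trans (by omega)) s' hsr
    have h2 : ‖qq lam B p m s'‖ ≤ ‖Phi lam B p m s'‖ + ‖Phi lam B p m s' - qq lam B p m s'‖ := by
      have := norm_sub_norm_le (qq lam B p m s') (Phi lam B p m s')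
      rw [norm_sub_rev (qq lam B p m s')] at this
      linarith only [this]
    linarith
  -- the numbers
  set S : ℝ := ((σ * h : ℕ) : ℝ) with hSd
  have hSv : S = σ * h := by rw [hSd]; push_cast; ring
  have hS1' : 1 ≤ S := by rw [hSd]; exact_mod_cast hS1
  set Q : ℝ := (τ * S) * (1 + 6 * S) ^ (2 * τ) * Real.exp (6 * S * τ) with hQ
  have hQ1 : 1 ≤ Q := by
    have q1 : 1 ≤ τ * S := one_le_mul_of_one_le_of_one_le hτ' hS1'
    have q2 : 1 ≤ (1 + 6 * S) ^ (2 * τ) := one_le_pow₀ (by linarith)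
    have q3 : 1 ≤ Real.exp (6 * S * τ) := Real.one_le_exp (by positivity)
    rw [hQ]
    have q4 : 1 ≤ (τ * S) * (1 + 6 * S) ^ (2 * τ) := one_le_mul_of_one_le_of_one_le q1 q2
    exact one_le_mul_of_one_le_of_one_le q4 q3
  have hQ2 : Q ≤ Real.exp (19 * (τ * σ) * h) := by
    have q1 : τ * S ≤ Real.exp (τ * S) := by linarith [Real.add_one_le_exp (τ * S : ℝ)]
    have q2 : (1 + 6 * S) ^ (2 * τ) ≤ Real.exp (12 * S * τ) := by
      calc (1 + 6 * S) ^ (2 * τ) ≤ (Real.exp (6 * S)) ^ (2 * τ) := by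
            gcongr
            linarith [Real.add_one_le_exp (6 * S : ℝ)]
        _ = Real.exp (12 * S * τ) := by
            rw [← Real.exp_nat_mul]
            congr 1
            push_cast
            ring
    calc Q ≤ Real.exp (τ * S) * Real.exp (12 * S * τ) * Real.exp (6 * S * τ) := by
          rw [hQ]
          gcongr
      _ = Real.exp (19 * (τ * σ) * h) := by
          rw [← Real.exp_add, ← Real.exp_add, hSv]
          congr 1
          ring
  set a : ℝ := k * cp + 16 * c3 with ha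
  have ha0 : 0 ≤ a := by positivity
  have hlq2 : 1 ≤ Real.exp (a * (h * E)) * ‖qq lam B p m s'‖ := by
    refine hlq.trans ?_
    gcongr
    calc P ^ k * Real.exp (c3 * (h * EE N T0 L0 (2 * σ)))
        ≤ P ^ k * Real.exp (c3 * (h * (16 * E))) := by gcongr
      _ = Real.exp (a * (h * E)) := by
          rw [hP, ← Real.exp_nat_mul, ← Real.exp_add]
          congr 1
          rw [ha]
          ring
  have hG : 1 ≤ (Real.exp (2 * h) * Lam) ^ τ := by
    apply one_le_pow₀
    exact one_le_mul_of_one_le_of_one_le (Real.one_le_exp (by positivity)) hLam1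
  have hG2 : (Real.exp (2 * h) * Lam) ^ τ ≤ Real.exp (τ * (2 + Lam) * h) := by
    have q1 : Lam ≤ Real.exp (Lam * h) := by
      have h1 := Real.add_one_le_exp Lam
      have h2 : Real.exp Lam ≤ Real.exp (Lam * h) :=
        Real.exp_le_exp.2 (le_mul_of_one_le_right (zero_le_one.trans hLam1) hh')
      linarith only [h1, h2]
    calc (Real.exp (2 * h) * Lam) ^ τ ≤ (Real.exp (2 * h) * Real.exp (Lam * h)) ^ τ := by
          gcongr
      _ = Real.exp (τ * (2 + Lam) * h) := by
          rw [← Real.exp_add, ← Real.exp_nat_mul]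
          congr 1
          ring
  -- first part
  have hp1 : Real.exp (a * (h * E)) * (eps * Q + eps0) < 1 / 2 := by
    have r1 : eps * Q + eps0 ≤ 2 * ((Real.exp (2 * h) * Lam) ^ τ * Q) * eps0 := by
      have r2 : 1 ≤ (Real.exp (2 * h) * Lam) ^ τ * Q := one_le_mul_of_one_le_of_one_le hG hQ1
      have r3 := mul_le_mul_of_nonneg_right r2 heps0n
      rw [heps]
      linarith only [r3]
    have r3 : Real.exp (a * (h * E)) * (eps * Q + eps0) ≤ 2 * Real.exp (-4) := by
      calc Real.exp (a * (h * E)) * (eps * Q + eps0)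
          ≤ Real.exp (a * (h * E)) * (2 * ((Real.exp (2 * h) * Lam) ^ τ * Q) * eps0) := by gcongr
        _ ≤ Real.exp (a * (h * E)) * (2 * (Real.exp (τ * (2 + Lam) * h) *
              Real.exp (19 * (τ * σ) * h)) * (P * Real.exp (16 * c2 * (h * E)) *
              Real.exp (-((Z' + 2 * N * σ + 2) * h)))) := by
            rw [heps0]
            gcongr
        _ = 2 * Real.exp (-((2 * (N * σ) + 2) * h)) := by
            rw [hP]
            have : ∀ x y z w u t : ℝ, Real.exp x * (2 * (Real.exp y * Real.exp z) *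
                (Real.exp w * Real.exp u * Real.exp t)) = 2 * Real.exp (x + y + z + w + u + t) := by
              intro x y z w u t
              rw [Real.exp_add, Real.exp_add, Real.exp_add, Real.exp_add, Real.exp_add]
              ring
            rw [this]
            congr 2
            rw [hZ', ha]
            ring
        _ ≤ 2 * Real.exp (-4) := by
            gcongr
            have h1 : 1 ≤ (N : ℝ) * σ := one_le_mul_of_one_le_of_one_le hN' hσ'
            have h2 : (2 * ((N : ℝ) * σ) + 2) * 1 ≤ (2 * (N * σ) + 2) * h :=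
              mul_le_mul_of_nonneg_left hh' (by positivity)
            linarith only [h1, h2]
    have r4 : Real.exp (-4 : ℝ) ≤ 1 / 5 := by
      rw [Real.exp_neg, ← one_div]
      apply one_div_le_one_div_of_le (by norm_num)
      linarith [Real.add_one_le_exp (4 : ℝ)]
    linarith
  have hp2 : Real.exp (a * (h * E)) * (2 * K1 * Real.exp (-(τ * S))) ≤ 1 / 2 := by
    have r1 : Real.exp (a * (h * E)) * (2 * K1 * Real.exp (-(τ * S))) =
        2 * Real.exp ((a + cp + 16 * c1) * (h * E) - τ * S) := by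
      rw [hK1, hP]
      have : ∀ x y z w : ℝ, Real.exp x * (2 * (Real.exp y * Real.exp z) * Real.exp w) =
          2 * Real.exp (x + y + z + w) := by
        intro x y z w
        rw [Real.exp_add, Real.exp_add, Real.exp_add]
        ring
      rw [this]
      congr 2
      ring
    have r2 : (a + cp + 16 * c1) * (h * E) - τ * S ≤ -3 := by
      have r3 : (a + cp + 16 * c1 + 3) * E ≤ τ * σ := hK
      have r4 : (a + cp + 16 * c1 + 3) * E * h ≤ τ * σ * h := by gcongr
      have r5 : (1 : ℝ) ≤ h * E := one_le_mul_of_one_le_of_one_le hh' f1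
      rw [hSv]
      linarith only [r4, r5]
    have r3 : Real.exp (-3 : ℝ) ≤ 1 / 4 := by
      rw [Real.exp_neg, ← one_div]
      apply one_div_le_one_div_of_le (by norm_num)
      linarith [Real.add_one_le_exp (3 : ℝ)]
    rw [r1]
    have r4 := Real.exp_le_exp.2 r2
    linarith
  have hfin : Real.exp (a * (h * E)) * ‖qq lam B p m s'‖ ≤
      Real.exp (a * (h * E)) * (eps * Q + eps0) +
        Real.exp (a * (h * E)) * (2 * K1 * Real.exp (-(τ * S))) := by
    rw [← mul_add]
    gcongr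
    linarith
  linarith

end Pool.Agent.H84.BF
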