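import Pool.Agent.H72.BF.Targets

/-!
Module SUP of the board bf_modules: upper bound of the auxiliary functions.
-/

open Polynomial Finset
open Pool.Agent.H72.BF

namespace Pool.Agent.H84.BF

theorem ee_facts (N T L0 : ℕ) (ρ : ℝ) (hN : 1 ≤ N) (hT : 1 ≤ T) (hρ : 0 ≤ ρ) :
    1 ≤ EE N T L0 ρ ∧ Real.log N ≤ EE N T L0 ρ ∧ (L0 : ℝ) + 1 ≤ EE N T L0 ρ ∧
      (N : ℝ) * ρ ≤ EE N T L0 ρ ∧ (T : ℝ) ≤ EE N T L0 ρ := by
  have hN' : (1 : ℝ) ≤ N := by exact_mod_cast hN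
  have hT' : (1 : ℝ) ≤ T := by exact_mod_cast hT
  have h1 : 0 ≤ Real.log N := Real.log_nonneg hN'
  have h2 : 0 ≤ Real.log T := Real.log_nonneg hT'
  have h3 : 0 ≤ Real.log (ρ + 2) := Real.log_nonneg (by linarith)
  have hL : (0 : ℝ) ≤ L0 := Nat.cast_nonneg _
  have h4 : (L0 : ℝ) + 1 ≤ (L0 + 1) * (1 + Real.log (ρ + 2)) := by nlinarith
  have h5 : 0 ≤ (N : ℝ) * ρ := by positivity
  have h6 : (T : ℝ) ≤ T * (1 + Real.log T + Real.log N) := by nlinarith
  have h7 : Real.log N ≤ T * (1 + Real.log T + Real.log N) := by nlinarith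
  unfold EE
  refine ⟨?_, ?_, ?_, ?_, ?_⟩ <;> nlinarith

theorem card_le (n N h L0 T : ℕ) (ρ : ℝ) (hN : 1 ≤ N) (hT : 1 ≤ T) (hh : 1 ≤ h) (hρ : 0 ≤ ρ) :
    (Fintype.card (Idx n N h L0) : ℝ) ≤ Real.exp ((n + 3) * (h * EE N T L0 ρ)) := by
  obtain ⟨f1, f2, f3, f4, f5⟩ := ee_facts N T L0 ρ hN hT hρ
  have hN' : (1 : ℝ) ≤ N := by exact_mod_cast hN
  have hh' : (1 : ℝ) ≤ h := by exact_mod_cast hh
  have e1 : (Fintype.card (Idx n N h L0) : ℝ) = (N : ℝ) ^ (n + 1) * (h * (L0 + 1)) := by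
    simp [Idx, Fintype.card_prod, Fintype.card_pi]
  have e2 : (N : ℝ) ^ (n + 1) = Real.exp ((n + 1) * Real.log N) := by
    rw [← Real.exp_log (show (0 : ℝ) < N by linarith), ← Real.exp_nat_mul]
    simp
  have e3 : (h : ℝ) ≤ Real.exp h := by linarith [Real.add_one_le_exp (h : ℝ)]
  have e4 : (L0 : ℝ) + 1 ≤ Real.exp (L0 + 1) := by linarith [Real.add_one_le_exp ((L0 : ℝ) + 1)]
  set E := EE N T L0 ρ with hE
  have g1 : E ≤ h * E := by nlinarith
  have g2 : (h : ℝ) ≤ h * E := by nlinarith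
  have g3 : ((n : ℝ) + 1) * Real.log N ≤ (n + 1) * (h * E) := by
    apply mul_le_mul_of_nonneg_left (f2.trans g1) (by positivity)
  calc (Fintype.card (Idx n N h L0) : ℝ) = (N : ℝ) ^ (n + 1) * (h * (L0 + 1)) := e1
    _ ≤ Real.exp ((n + 1) * (h * E)) * (Real.exp (h * E) * Real.exp (h * E)) := by
        rw [e2]
        gcongr
        · exact e3.trans (Real.exp_le_exp.2 g2)
        · exact e4.trans (Real.exp_le_exp.2 (f3.trans g1))
    _ = Real.exp ((n + 3) * (h * E)) := by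
        rw [← Real.exp_add, ← Real.exp_add]
        congr 1
        ring

theorem sup (hC : T_CFB) (hX : T_EXF) : T_SUP := by
  intro n lam δ
  obtain ⟨c1, hc1, h1⟩ := hC n δ
  set A : ℝ := ∑ j, ‖lam j‖ + 1 with hA
  have hA0 : 0 ≤ A := by positivity
  refine ⟨c1 + (n + 3) + A, by positivity, ?_⟩
  intro h B hh hB hv N T L0 ρ hN hT hρ p P hp m hm z hz
  obtain ⟨f1, f2, f3, f4, f5⟩ := ee_facts N T L0 ρ hN hT hρ
  set E := EE N T L0 ρ with hE
  have hN' : (1 : ℝ) ≤ N := by exact_mod_cast hN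
  have hh' : (1 : ℝ) ≤ h := by exact_mod_cast hh
  have hP : 0 ≤ P := by
    let u0 : Idx n N h L0 := (fun _ => ⟨0, hN⟩, ⟨0, hh⟩, ⟨0, Nat.succ_pos _⟩)
    exact (abs_nonneg _).trans (hp u0)
  have hterm : ∀ u : Idx n N h L0, ‖(p u : ℂ) * cf B h (tt u) u.2.1 u.2.2 m z *
      Complex.exp (ex lam B (tt u) * z)‖ ≤
      P * Real.exp (c1 * (h * E)) * Real.exp (A * (h * E)) := by
    intro u
    have htt : ∀ j, (tt u j) ≤ N := fun j => (u.1 j).2.le
    rw [norm_mul, norm_mul]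
    have a1 : ‖(p u : ℂ)‖ ≤ P := by
      rw [Complex.norm_intCast]
      exact hp u
    have a2 : ‖cf B h (tt u) u.2.1 u.2.2 m z‖ ≤ Real.exp (c1 * (h * E)) :=
      h1 h B hh hB N T L0 ρ hN hT hρ (tt u) m u.2.1 u.2.2 z htt hm u.2.1.2.le
        (Nat.lt_succ_iff.1 u.2.2.2) hz
    have a3 : ‖ex lam B (tt u)‖ ≤ A * N := by
      rw [hX n lam B (tt u) hB.h0]
      have b1 : ‖∑ j, (tt u j : ℂ) * lam j‖ ≤ N * ∑ j, ‖lam j‖ := by
        refine (norm_sum_le _ _).trans ?_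
        rw [Finset.mul_sum]
        refine Finset.sum_le_sum fun j _ => ?_
        rw [norm_mul, Complex.norm_natCast]
        gcongr
        exact_mod_cast htt j
      have b2 : ‖(tt u 0 : ℂ) * (B.val lam / B.b 0)‖ ≤ N := by
        rw [norm_mul, Complex.norm_natCast]
        have : (tt u 0 : ℝ) ≤ N := by exact_mod_cast htt 0
        calc (tt u 0 : ℝ) * ‖B.val lam / B.b 0‖ ≤ N * 1 := by gcongr
          _ = N := mul_one _
      refine (norm_sub_le _ _).trans ?_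
      rw [hA]
      linarith
    have a4 : ‖Complex.exp (ex lam B (tt u) * z)‖ ≤ Real.exp (A * (h * E)) := by
      refine (Complex.norm_exp_le_exp_norm _).trans (Real.exp_le_exp.2 ?_)
      rw [norm_mul]
      calc ‖ex lam B (tt u)‖ * ‖z‖ ≤ (A * N) * (ρ * h) := by gcongr
        _ = A * (h * (N * ρ)) := by ring
        _ ≤ A * (h * E) := by gcongr
    gcongr
  calc ‖Phi lam B p m z‖ ≤ ∑ u : Idx n N h L0, P * Real.exp (c1 * (h * E)) *
        Real.exp (A * (h * E)) := by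
        refine (norm_sum_le _ _).trans (Finset.sum_le_sum fun u _ => hterm u)
    _ = Fintype.card (Idx n N h L0) * (P * Real.exp (c1 * (h * E)) *
        Real.exp (A * (h * E))) := by
        rw [Finset.sum_const, nsmul_eq_mul, Finset.card_univ]
    _ ≤ Real.exp ((n + 3) * (h * E)) * (P * Real.exp (c1 * (h * E)) *
        Real.exp (A * (h * E))) := by
        gcongr
        exact card_le n N h L0 T ρ hN hT hh hρ
    _ = P * Real.exp ((c1 + (n + 3) + A) * (h * E)) := by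
        rw [show (c1 + ((n : ℝ) + 3) + A) * (h * E) = (n + 3) * (h * E) + c1 * (h * E) +
          A * (h * E) by ring, Real.exp_add, Real.exp_add]
        ring

end Pool.Agent.H84.BF
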