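import Pool.Agent.H72.BF.Targets4
import Pool.Agent.H29.BF.QPF

/-!
Module AAK of the board bf_modules (MP_3cf473_nt): from the residue field to almost all tuples
(helper84).
-/

open Filter

namespace Pool.Agent.H84.BF

open Pool.Agent.H72.BF

/-- a sequence of nonzero integer polynomials with values negligible along the ultrafilter gives a
relation -/
lemma seq_rel_ev (hEVP : T_EVP) {H : ℕ → ℝ} (P : Pkg H) {σ : Type} [Fintype σ] (d : ℕ)
    (Q : ℕ → MvPolynomial σ ℤ) (h0 : ∀ j, Q j ≠ 0) (hd : ∀ j, (Q j).totalDegree ≤ d)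
    (hco : ∀ j, ∀ m : σ →₀ ℕ, |(((Q j).coeff m : ℤ) : ℝ)| ≤ H j)
    (x : ℕ → σ → ℂ) (hx : ∀ i, (fun j => x j i) ∈ P.O)
    (hval : ∀ᶠ j in (hyperfilter ℕ : Filter ℕ),
      H j ^ ((j : ℝ) + 1) * ‖MvPolynomial.aeval (x j) (Q j)‖ < 1) :
    ∃ Q' : MvPolynomial σ P.kb, Q' ≠ 0 ∧ Q'.totalDegree ≤ d ∧
      MvPolynomial.aeval (fun i => P.ev (fun j => x j i)) Q' = 0 := by
  classical
  have hco' : ∀ j, ∀ m : σ →₀ ℕ, |(((Q j).coeff m : ℤ) : ℝ)| ≤ H j ^ 1 := by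
    intro j m; rw [pow_one]; exact hco j m
  obtain ⟨Q', hQd, hQc, hQe⟩ := hEVP H P σ d 1 Q hd hco'
  have hB : ∀ m : σ →₀ ℕ, P.Bd (fun j => (Q j).coeff m) := fun m =>
    P.bd_of_le 1 (fun j => hco' j m)
  have hQ0 : Q' ≠ 0 := by
    intro hz
    have h1 : ∀ m : σ →₀ ℕ, ∀ᶠ j in (hyperfilter ℕ : Filter ℕ), (Q j).coeff m = 0 := by
      intro m
      rw [← P.evZ_eq_zero (hB m), ← hQc m, hz, MvPolynomial.coeff_zero]
      rfl
    have h2 : ∀ᶠ j in (hyperfilter ℕ : Filter ℕ), ∀ m ∈ {m : σ →₀ ℕ | m.degree ≤ d},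
        (Q j).coeff m = 0 :=
      (Filter.eventually_all_finite (Pool.Agent.H29.BF.fin_deg σ d)).2 fun m _ => h1 m
    obtain ⟨j, hj⟩ := h2.exists
    apply h0 j
    ext m
    rw [MvPolynomial.coeff_zero]
    by_cases hm : m.degree ≤ d
    · exact hj m hm
    · by_contra hne
      have h3 := MvPolynomial.le_totalDegree (MvPolynomial.mem_support_iff.2 hne)
      have h4 : m.degree = m.sum fun _ e => e := by
        rfl
      have := hd j
      omega
  refine ⟨MvPolynomial.map (algebraMap P.kk P.kb) Q', ?_, ?_, ?_⟩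
  · intro h
    apply hQ0
    apply MvPolynomial.map_injective (algebraMap P.kk P.kb) (algebraMap P.kk P.kb).injective
    rw [h, map_zero]
  · exact (Finset.sup_mono (MvPolynomial.support_map_subset _ _)).trans hQd
  · rw [MvPolynomial.aeval_map_algebraMap, (hQe x hx).2, P.ev_eq_zero (hQe x hx).1]
    intro c
    filter_upwards [Pool.Agent.H29.BF.ev_ge c, hval] with j hj h4
    have h1 := P.hH j
    have h2 : H j ^ c ≤ H j ^ ((j : ℝ) + 1) := by
      rw [← Real.rpow_natCast]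
      refine Real.rpow_le_rpow_of_exponent_le (by linarith) ?_
      have : (c : ℝ) ≤ j := by exact_mod_cast hj
      linarith
    have h3 : 0 ≤ ‖MvPolynomial.aeval (x j) (Q j)‖ := norm_nonneg _
    nlinarith [mul_le_mul_of_nonneg_right h2 h3]

/-- a tuple which is bad for almost all scales is bad in the residue field -/
lemma badF_of_ev (hEVP : T_EVP) {H : ℕ → ℝ} (P : Pkg H) (lam0 : ℂ) (n d : ℕ) (a : Fin n → ℂ)
    (h : ∀ᶠ j : ℕ in (hyperfilter ℕ : Filter ℕ), badZ lam0 n d ((j : ℝ) + 1) (H j) a) :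
    badF P lam0 n d a := by
  classical
  have key : ∀ j, ∃ Q : MvPolynomial (Fin (n + 1)) ℤ, Q ≠ 0 ∧ Q.totalDegree ≤ d ∧
      (∀ m : Fin (n + 1) →₀ ℕ, |((Q.coeff m : ℤ) : ℝ)| ≤ H j) ∧
      (badZ lam0 n d ((j : ℝ) + 1) (H j) a →
        H j ^ ((j : ℝ) + 1) * ‖MvPolynomial.aeval (Fin.cons lam0 a : Fin (n + 1) → ℂ) Q‖ < 1) := by
    intro j
    by_cases hb : badZ lam0 n d ((j : ℝ) + 1) (H j) a
    · obtain ⟨Q, h1, h2, h3, h4⟩ := hb
      exact ⟨Q, h1, h2, h3, fun _ => h4⟩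
    · refine ⟨1, one_ne_zero, by simp, ?_, fun h => absurd h hb⟩
      intro m
      have h2 := P.hH j
      rw [MvPolynomial.coeff_one]
      split_ifs
      · simp; linarith
      · simp; linarith
  choose Q h1 h2 h3 h4 using key
  obtain ⟨Q', g1, g2, g3⟩ := seq_rel_ev hEVP P d Q h1 h2 h3
    (fun _ => (Fin.cons lam0 a : Fin (n + 1) → ℂ)) (fun i => P.const_mem _)
    (by filter_upwards [h] with j hj using h4 j hj)
  refine ⟨Q', g1, g2, ?_⟩
  rw [← g3]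
  congr 2
  funext i
  refine Fin.cases ?_ ?_ i
  · rfl
  · intro i; rfl

theorem aak (hPKG : T_PKG) (hEVP : T_EVP) (hCNTF : T_CNTF) : T_AAK := by
  classical
  intro n d δ hδ
  obtain ⟨k, ε, hε, hC⟩ := hCNTF n d δ hδ
  refine ⟨k, ε, hε, ?_⟩
  intro X hX hcub lam0 h0 hal
  by_contra hcon
  push Not at hcon
  choose H hH2 hH using fun j : ℕ => hcon ((j : ℝ) + 1) (by positivity)
  obtain ⟨P⟩ := hPKG H hH2
  have hfin : {a : Fin n → ℂ | ∀ i, a i ∈ X}.Finite := by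
    have : {a : Fin n → ℂ | ∀ i, a i ∈ X} =
        ((Fintype.piFinset (fun _ : Fin n => X) : Finset (Fin n → ℂ)) : Set (Fin n → ℂ)) := by
      ext a
      simp
    rw [this]
    exact Finset.finite_toSet _
  set S : Set (Fin n → ℂ) := {a | (∀ i, a i ∈ X) ∧
    ∀ᶠ j : ℕ in (hyperfilter ℕ : Filter ℕ), badZ lam0 n d ((j : ℝ) + 1) (H j) a} with hS
  have hev : ∀ᶠ j : ℕ in (hyperfilter ℕ : Filter ℕ), ∀ a ∈ {a : Fin n → ℂ | ∀ i, a i ∈ X},
      (badZ lam0 n d ((j : ℝ) + 1) (H j) a → a ∈ S) := by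
    refine (Filter.eventually_all_finite hfin).2 fun a ha => ?_
    by_cases haS : ∀ᶠ j : ℕ in (hyperfilter ℕ : Filter ℕ), badZ lam0 n d ((j : ℝ) + 1) (H j) a
    · exact Filter.Eventually.of_forall fun j _ => ⟨ha, haS⟩
    · have := Ultrafilter.eventually_not.2 haS
      filter_upwards [this] with j hj h using absurd h hj
  obtain ⟨j, hj⟩ := hev.exists
  have hsub1 : {a : Fin n → ℂ | (∀ i, a i ∈ X) ∧ badZ lam0 n d ((j : ℝ) + 1) (H j) a} ⊆
      {a : Fin n → ℂ | (∀ i, a i ∈ X) ∧ badF P lam0 n d a} := by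
    intro a ha
    have haS := hj a ha.1 ha.2
    exact ⟨ha.1, badF_of_ev hEVP P lam0 n d a haS.2⟩
  have hfin2 : {a : Fin n → ℂ | (∀ i, a i ∈ X) ∧ badF P lam0 n d a}.Finite :=
    hfin.subset fun a ha => ha.1
  have h1 := Set.ncard_le_ncard hsub1 hfin2
  have h2 := hC X hX hcub lam0 h0 hal H P
  have h3 := hH j
  have h4 : (Set.ncard {a : Fin n → ℂ | (∀ i, a i ∈ X) ∧
      badZ lam0 n d ((j : ℝ) + 1) (H j) a} : ℝ) ≤
      (Set.ncard {a : Fin n → ℂ | (∀ i, a i ∈ X) ∧ badF P lam0 n d a} : ℝ) := by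
    exact_mod_cast h1
  linarith

end Pool.Agent.H84.BF
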