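import Pool.Agent.H72.BF.Targets4

/-!
Module TK of the board bf_modules (MP_3cf473_nt): the Turan-Kubilius step (helper84).
-/

open Finset

namespace Pool.Agent.H84.BF

open Pool.Agent.H72.BF

/-- finitely many primes outside a finite set with a large sum of reciprocals -/
lemma exists_primes (E : Finset ℕ) (C : ℝ) : ∃ Pr : Finset ℕ,
    (∀ p ∈ Pr, p.Prime ∧ p ∉ E) ∧ C ≤ ∑ p ∈ Pr, (1 : ℝ) / p := by
  classical
  set g : ℕ → ℝ := fun n => if n.Prime ∧ n ∉ E then (1 : ℝ) / n else 0 with hg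
  have hns : ¬ Summable g := by
    intro hs
    apply not_summable_one_div_on_primes
    have h2 : Summable (fun n : ℕ => if n.Prime ∧ n ∈ E then (1 : ℝ) / n else 0) := by
      apply summable_of_hasFiniteSupport
      refine (Finset.finite_toSet E).subset ?_
      intro n hn
      by_contra h
      apply hn
      have h' : n ∉ E := h
      simp [h']
    have h3 := hs.add h2
    refine h3.congr ?_
    intro n
    by_cases hp : n.Prime
    · by_cases hE : n ∈ E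
      · simp [hg, Set.indicator, hp, hE]
      · simp [hg, Set.indicator, hp, hE]
    · simp [hg, Set.indicator, hp]
  have hg0 : ∀ n, 0 ≤ g n := by
    intro n
    simp only [hg]
    split_ifs
    · positivity
    · exact le_rfl
  have ht := (not_summable_iff_tendsto_nat_atTop_of_nonneg hg0).1 hns
  obtain ⟨n, hn⟩ := (ht.eventually_ge_atTop C).exists
  refine ⟨(range n).filter (fun p => p.Prime ∧ p ∉ E), ?_, ?_⟩
  · intro p hp
    exact (mem_filter.1 hp).2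
  · rw [sum_filter]
    exact hn

/-- number of multiples -/
lemma card_mult (x p : ℕ) : ((Icc 1 x).filter (fun n => p ∣ n)).card = x / p := by
  rw [← Nat.Ioc_filter_dvd_card_eq_div x p]
  rfl

lemma card_mult_le (x p : ℕ) : (((Icc 1 x).filter (fun n => p ∣ n)).card : ℝ) ≤ (x : ℝ) / p := by
  rw [card_mult]
  exact Nat.cast_div_le

lemma card_mult_ge (x p : ℕ) (hp : 1 ≤ p) :
    (x : ℝ) / p - 1 ≤ (((Icc 1 x).filter (fun n => p ∣ n)).card : ℝ) := by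
  rw [card_mult]
  have h1 : x < (x / p + 1) * p := Nat.lt_mul_of_div_lt (Nat.lt_succ_self _) (by omega)
  have h2 : (x : ℝ) < ((x / p : ℕ) + 1) * p := by exact_mod_cast h1
  have hp' : (0 : ℝ) < p := by exact_mod_cast hp
  have h3 : (x : ℝ) / p < ((x / p : ℕ) : ℝ) + 1 := by rwa [div_lt_iff₀ hp']
  linarith

/-- the number of primes of `Pr` dividing `n` -/
noncomputable def om (Pr : Finset ℕ) (n : ℕ) : ℝ := ∑ p ∈ Pr, if p ∣ n then (1 : ℝ) else 0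

lemma sum_om (Pr : Finset ℕ) (x : ℕ) :
    ∑ n ∈ Icc 1 x, om Pr n = ∑ p ∈ Pr, (((Icc 1 x).filter (fun n => p ∣ n)).card : ℝ) := by
  unfold om
  rw [sum_comm]
  refine sum_congr rfl fun p _ => ?_
  rw [Finset.sum_boole]

lemma sum_om_ge (Pr : Finset ℕ) (hPr : ∀ p ∈ Pr, p.Prime) (x : ℕ) :
    (x : ℝ) * (∑ p ∈ Pr, (1 : ℝ) / p) - Pr.card ≤ ∑ n ∈ Icc 1 x, om Pr n := by
  rw [sum_om, mul_sum, card_eq_sum_ones, Nat.cast_sum, ← sum_sub_distrib]
  refine sum_le_sum fun p hp => ?_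
  have := card_mult_ge x p (hPr p hp).one_lt.le
  push_cast
  rw [mul_one_div]
  exact this

lemma sum_om_sq (Pr : Finset ℕ) (hPr : ∀ p ∈ Pr, p.Prime) (x : ℕ) :
    ∑ n ∈ Icc 1 x, om Pr n ^ 2 ≤
      (x : ℝ) * (∑ p ∈ Pr, (1 : ℝ) / p) ^ 2 + (x : ℝ) * (∑ p ∈ Pr, (1 : ℝ) / p) := by
  classical
  have e1 : ∀ n, om Pr n ^ 2 =
      ∑ p ∈ Pr, ∑ q ∈ Pr, if p ∣ n ∧ q ∣ n then (1 : ℝ) else 0 := by
    intro n
    unfold om
    rw [sq, sum_mul_sum]
    refine sum_congr rfl fun p _ => sum_congr rfl fun q _ => ?_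
    by_cases h1 : p ∣ n <;> by_cases h2 : q ∣ n <;> simp [h1, h2]
  have e2 : ∑ n ∈ Icc 1 x, om Pr n ^ 2 = ∑ p ∈ Pr, ∑ q ∈ Pr,
      (((Icc 1 x).filter (fun n => p ∣ n ∧ q ∣ n)).card : ℝ) := by
    simp_rw [e1]
    rw [sum_comm]
    refine sum_congr rfl fun p _ => ?_
    rw [sum_comm]
    refine sum_congr rfl fun q _ => ?_
    rw [Finset.sum_boole]
  have e3 : ∀ p ∈ Pr, ∑ q ∈ Pr, (((Icc 1 x).filter (fun n => p ∣ n ∧ q ∣ n)).card : ℝ) ≤
      (∑ q ∈ Pr, (x : ℝ) * ((1 : ℝ) / p * (1 / q))) + (x : ℝ) * (1 / p) := by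
    intro p hp
    rw [← Finset.add_sum_erase _ _ hp, ← Finset.add_sum_erase Pr (fun q : ℕ =>
      (x : ℝ) * ((1 : ℝ) / p * (1 / q))) hp]
    have h1 : (((Icc 1 x).filter (fun n => p ∣ n ∧ p ∣ n)).card : ℝ) ≤ (x : ℝ) * (1 / p) := by
      simp only [and_self]
      rw [mul_one_div]
      exact card_mult_le x p
    have h2 : ∑ q ∈ Pr.erase p, (((Icc 1 x).filter (fun n => p ∣ n ∧ q ∣ n)).card : ℝ) ≤
        ∑ q ∈ Pr.erase p, (x : ℝ) * ((1 : ℝ) / p * (1 / q)) := by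
      refine sum_le_sum fun q hq => ?_
      have hq1 := mem_of_mem_erase hq
      have hq2 := ne_of_mem_erase hq
      have hcop : Nat.Coprime p q := (Nat.coprime_primes (hPr p hp) (hPr q hq1)).2 hq2.symm
      have e : (Icc 1 x).filter (fun n => p ∣ n ∧ q ∣ n) =
          (Icc 1 x).filter (fun n => p * q ∣ n) := by
        refine filter_congr fun n _ => ?_
        constructor
        · rintro ⟨a, b⟩
          exact hcop.mul_dvd_of_dvd_of_dvd a b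
        · intro h
          exact ⟨(dvd_mul_right p q).trans h, (dvd_mul_left q p).trans h⟩
      rw [e]
      refine (card_mult_le x (p * q)).trans (le_of_eq ?_)
      push_cast
      rw [div_mul_div_comm, one_mul, mul_one_div]
    have h3 : 0 ≤ (x : ℝ) * ((1 : ℝ) / p * (1 / p)) := by positivity
    linarith
  rw [e2]
  refine (sum_le_sum e3).trans (le_of_eq ?_)
  rw [sum_add_distrib, ← mul_sum, sq, sum_mul_sum]
  congr 1
  rw [mul_sum]
  refine sum_congr rfl fun p _ => ?_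
  rw [mul_sum]

/-- Turan-Kubilius -/
lemma variance (Pr : Finset ℕ) (hPr : ∀ p ∈ Pr, p.Prime) (x : ℕ) (L : ℝ)
    (hL : L = ∑ p ∈ Pr, (1 : ℝ) / p) :
    ∑ n ∈ Icc 1 x, (L - om Pr n) ^ 2 ≤ (x : ℝ) * L + 2 * L * Pr.card := by
  have h1 := sum_om_sq Pr hPr x
  have h2 := sum_om_ge Pr hPr x
  rw [← hL] at h1 h2
  have hL0 : 0 ≤ L := by rw [hL]; positivity
  have e : ∑ n ∈ Icc 1 x, (L - om Pr n) ^ 2 =
      (x : ℝ) * L ^ 2 - 2 * L * ∑ n ∈ Icc 1 x, om Pr n + ∑ n ∈ Icc 1 x, om Pr n ^ 2 := by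
    have : ∀ n, (L - om Pr n) ^ 2 = L ^ 2 - 2 * L * om Pr n + om Pr n ^ 2 := fun n => by ring
    simp_rw [this]
    rw [sum_add_distrib, sum_sub_distrib, ← mul_sum]
    simp
  rw [e]
  nlinarith [mul_le_mul_of_nonneg_left h2 hL0]

/-- a dense set has many multiples of the primes -/
lemma sum_om_dense (Pr : Finset ℕ) (hPr : ∀ p ∈ Pr, p.Prime) (x : ℕ) (L : ℝ)
    (hL : L = ∑ p ∈ Pr, (1 : ℝ) / p) (hx : 2 * Pr.card ≤ x) (S : Finset ℕ) (hS : S ⊆ Icc 1 x)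
    (hd : 8 * (x : ℝ) < L * S.card) :
    L * S.card / 2 ≤ ∑ n ∈ S, om Pr n := by
  by_contra hcon
  push Not at hcon
  have hL0 : 0 ≤ L := by rw [hL]; positivity
  have h1 : ∑ n ∈ S, (L - om Pr n) = L * S.card - ∑ n ∈ S, om Pr n := by
    rw [sum_sub_distrib]; simp [mul_comm]
  have h2 : L * S.card / 2 < ∑ n ∈ S, (L - om Pr n) := by rw [h1]; linarith
  have h3 := sq_sum_le_card_mul_sum_sq (s := S) (f := fun n => L - om Pr n)
  have h4 : ∑ n ∈ S, (L - om Pr n) ^ 2 ≤ ∑ n ∈ Icc 1 x, (L - om Pr n) ^ 2 :=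
    sum_le_sum_of_subset_of_nonneg hS fun _ _ _ => sq_nonneg _
  have h5 := variance Pr hPr x L hL
  have hx' : 2 * (Pr.card : ℝ) ≤ x := by exact_mod_cast hx
  have h6 : ∑ n ∈ S, (L - om Pr n) ^ 2 ≤ 2 * L * x := by nlinarith
  have hc0 : (0 : ℝ) ≤ S.card := Nat.cast_nonneg _
  have h7 : (∑ n ∈ S, (L - om Pr n)) ^ 2 ≤ S.card * (2 * L * x) :=
    h3.trans (mul_le_mul_of_nonneg_left h6 hc0)
  have h8 : 0 ≤ L * S.card / 2 := by positivity
  have h9 : (L * S.card / 2) ^ 2 < (∑ n ∈ S, (L - om Pr n)) ^ 2 :=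
    pow_lt_pow_left₀ h2 h8 (by norm_num)
  have h10 : (L * S.card) * (L * S.card) < (L * S.card) * (8 * x) := by nlinarith
  have h11 : 0 ≤ L * S.card := by positivity
  have h12 : L * S.card < 8 * x := lt_of_mul_lt_mul_left h10 h11
  linarith

/-- number of `p ∈ Pr` with `p m ∈ S` -/
noncomputable def ff (Pr S : Finset ℕ) (m : ℕ) : ℝ := ∑ p ∈ Pr, if p * m ∈ S then (1 : ℝ) else 0

lemma sum_ff (Pr : Finset ℕ) (hPr : ∀ p ∈ Pr, p.Prime) (x : ℕ) (S : Finset ℕ)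
    (hS : S ⊆ Icc 1 x) : ∑ m ∈ Icc 1 x, ff Pr S m = ∑ n ∈ S, om Pr n := by
  classical
  unfold ff om
  rw [sum_comm, sum_comm (s := S)]
  refine sum_congr rfl fun p hp => ?_
  rw [Finset.sum_boole, Finset.sum_boole]
  congr 1
  have hp0 : 0 < p := (hPr p hp).pos
  refine card_bij (fun m _ => p * m) ?_ ?_ ?_
  · intro m hm
    rw [mem_filter] at hm ⊢
    exact ⟨hm.2, dvd_mul_right p m⟩
  · intro a _ b _ h
    exact Nat.eq_of_mul_eq_mul_left hp0 h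
  · intro n hn
    rw [mem_filter] at hn
    obtain ⟨m, rfl⟩ := hn.2
    have h1 := mem_Icc.1 (hS hn.1)
    refine ⟨m, ?_, rfl⟩
    rw [mem_filter, mem_Icc]
    refine ⟨⟨?_, ?_⟩, hn.1⟩
    · rcases Nat.eq_zero_or_pos m with h | h
      · rw [h] at h1; simp at h1
      · exact h
    · exact (Nat.le_mul_of_pos_left m hp0).trans h1.2

noncomputable def NN (Pr : Finset ℕ) (x m : ℕ) : ℝ := ∑ p ∈ Pr, if p * m ≤ x then (1 : ℝ) else 0

lemma sum_NN (Pr : Finset ℕ) (hPr : ∀ p ∈ Pr, p.Prime) (x : ℕ) :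
    ∑ m ∈ Icc 1 x, NN Pr x m ≤ (x : ℝ) * ∑ p ∈ Pr, (1 : ℝ) / p := by
  classical
  unfold NN
  rw [sum_comm, mul_sum]
  refine sum_le_sum fun p hp => ?_
  rw [Finset.sum_boole]
  have hp0 : 0 < p := (hPr p hp).pos
  have h1 : (Icc 1 x).filter (fun m => p * m ≤ x) ⊆ Icc 1 (x / p) := by
    intro m hm
    rw [mem_filter, mem_Icc] at hm
    rw [mem_Icc]
    refine ⟨hm.1.1, ?_⟩
    rw [Nat.le_div_iff_mul_le hp0, mul_comm]
    exact hm.2
  have h2 := card_le_card h1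
  rw [Nat.card_Icc, Nat.add_sub_cancel] at h2
  have h3 : (((Icc 1 x).filter (fun m => p * m ≤ x)).card : ℝ) ≤ ((x / p : ℕ) : ℝ) := by
    exact_mod_cast h2
  rw [mul_one_div]
  exact h3.trans Nat.cast_div_le

lemma ff_nat (Pr S : Finset ℕ) (m : ℕ) : ff Pr S m = ((Pr.filter (fun p => p * m ∈ S)).card : ℝ) := by
  unfold ff
  rw [Finset.sum_boole]

lemma ff_le_NN (Pr S : Finset ℕ) (x : ℕ) (hS : S ⊆ Icc 1 x) (m : ℕ) : ff Pr S m ≤ NN Pr x m := by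
  unfold ff NN
  refine sum_le_sum fun p _ => ?_
  by_cases h : p * m ∈ S
  · have := (mem_Icc.1 (hS h)).2
    simp [h, this]
  · by_cases h' : p * m ≤ x
    · simp [h, h']
    · simp [h, h']

lemma NN_nat (Pr : Finset ℕ) (x m : ℕ) :
    NN Pr x m = ((Pr.filter (fun p => p * m ≤ x)).card : ℝ) := by
  unfold NN
  rw [Finset.sum_boole]

/-- tangent line -/
lemma tangent (c : ℝ) (f N : ℕ) (hf : f ≤ N) :
    2 * c * f - c ^ 2 * N - 1 ≤ (f : ℝ) ^ 2 - f := by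
  have hN0 : (0 : ℝ) ≤ N := Nat.cast_nonneg _
  rcases Nat.eq_zero_or_pos f with rfl | hf0
  · have : 0 ≤ c ^ 2 * N := by positivity
    simp
    linarith
  · have h1 : (1 : ℝ) ≤ f := by exact_mod_cast hf0
    have h2 : (f : ℝ) ≤ N := by exact_mod_cast hf
    have h3 : (1 : ℝ) ≤ N := h1.trans h2
    -- `f^2 - 2 c f N + c^2 N^2 ≥ 0`, divided by `N`
    have h4 : 0 ≤ ((f : ℝ) - c * N) ^ 2 := sq_nonneg _
    have h5 : (2 * c * f - c ^ 2 * N) * N ≤ (f : ℝ) ^ 2 := by nlinarith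
    have h6 : 2 * c * f - c ^ 2 * N ≤ (f : ℝ) ^ 2 / N := by
      rw [le_div_iff₀ (by linarith)]; exact h5
    have h7 : (f : ℝ) ^ 2 / N - 1 ≤ (f : ℝ) ^ 2 - f := by
      have e : (f : ℝ) ^ 2 / N = f * (f / N) := by ring
      have h8 : (f : ℝ) / N ≤ 1 := by rw [div_le_one (by linarith)]; exact h2
      have h10 : ((f : ℝ) ^ 2 - f) / N ≤ (f : ℝ) ^ 2 - f := by
        apply div_le_self _ h3
        nlinarith
      have h11 : ((f : ℝ) ^ 2 - f) / N = (f : ℝ) ^ 2 / N - f / N := by ring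
      linarith
    linarith

/-- pairs -/
lemma ff_sq (Pr S : Finset ℕ) (x : ℕ) :
    ∑ m ∈ Icc 1 x, (ff Pr S m ^ 2 - ff Pr S m) = ∑ pq ∈ Pr.offDiag,
      (((Icc 1 x).filter (fun m => pq.1 * m ∈ S ∧ pq.2 * m ∈ S)).card : ℝ) := by
  classical
  have e1 : ∀ m, ff Pr S m ^ 2 - ff Pr S m =
      ∑ pq ∈ Pr.offDiag, if pq.1 * m ∈ S ∧ pq.2 * m ∈ S then (1 : ℝ) else 0 := by
    intro m
    have h1 : ff Pr S m ^ 2 = ∑ pq ∈ Pr ×ˢ Pr,
        if pq.1 * m ∈ S ∧ pq.2 * m ∈ S then (1 : ℝ) else 0 := by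
      unfold ff
      rw [sq, sum_mul_sum, sum_product]
      refine sum_congr rfl fun p _ => sum_congr rfl fun q _ => ?_
      by_cases h1 : p * m ∈ S <;> by_cases h2 : q * m ∈ S <;> simp [h1, h2]
    have h2 : ff Pr S m = ∑ pq ∈ Pr.diag,
        if pq.1 * m ∈ S ∧ pq.2 * m ∈ S then (1 : ℝ) else 0 := by
      unfold ff
      rw [Finset.sum_diag]
      simp
    rw [h1, ← Finset.diag_union_offDiag, sum_union (Finset.disjoint_diag_offDiag Pr), ← h2]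
    ring
  simp_rw [e1]
  rw [sum_comm]
  refine sum_congr rfl fun pq _ => ?_
  rw [Finset.sum_boole]

theorem tk : T_TK := by
  classical
  intro δ0 E hδ0
  -- we may assume `δ ≤ 1`
  obtain ⟨δ, hδ, hδ1, hδ2⟩ : ∃ δ : ℝ, 0 < δ ∧ δ ≤ 1 ∧ δ ≤ δ0 :=
    ⟨min δ0 1, lt_min hδ0 one_pos, min_le_right _ _, min_le_left _ _⟩
  obtain ⟨Pr, hPr, hLC⟩ := exists_primes E (16 / δ ^ 2)
  have hPr' : ∀ p ∈ Pr, p.Prime := fun p hp => (hPr p hp).1
  set L : ℝ := ∑ p ∈ Pr, (1 : ℝ) / p with hL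
  have hc0 : (0 : ℝ) ≤ (Pr.card : ℝ) ^ 2 := by positivity
  refine ⟨Pr, 1 / ((Pr.card : ℝ) ^ 2 + 1), 2 * Pr.card + 1, by positivity, hPr, ?_⟩
  intro x hx S hS hSd
  have hx1 : (1 : ℝ) ≤ x := by
    have : 1 ≤ x := by omega
    exact_mod_cast this
  have hSd' : δ * x ≤ S.card := le_trans (by nlinarith) hSd
  have hL16 : 16 ≤ L * δ ^ 2 := by
    have h := hLC
    rw [div_le_iff₀ (by positivity)] at h
    exact h
  have hL0 : 0 ≤ L := by rw [hL]; positivity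
  have hLd : 16 ≤ L * δ := by
    have : L * δ ^ 2 ≤ L * δ := by
      apply mul_le_mul_of_nonneg_left _ hL0
      nlinarith
    linarith
  have hdense : 8 * (x : ℝ) < L * S.card := by
    have h1 : L * (δ * x) ≤ L * S.card := mul_le_mul_of_nonneg_left hSd' hL0
    nlinarith
  have h1 := sum_om_dense Pr hPr' x L hL (by omega) S hS hdense
  rw [← sum_ff Pr hPr' x S hS] at h1
  have h2 : L * (δ * x) / 2 ≤ ∑ m ∈ Icc 1 x, ff Pr S m := by
    have : L * (δ * x) ≤ L * S.card := mul_le_mul_of_nonneg_left hSd' hL0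
    linarith
  have h3 := sum_NN Pr hPr' x
  rw [← hL] at h3
  -- the tangent line inequality, summed
  have h4 : 2 * (δ / 2) * (∑ m ∈ Icc 1 x, ff Pr S m) -
      (δ / 2) ^ 2 * (∑ m ∈ Icc 1 x, NN Pr x m) - x ≤
      ∑ m ∈ Icc 1 x, (ff Pr S m ^ 2 - ff Pr S m) := by
    have e : 2 * (δ / 2) * (∑ m ∈ Icc 1 x, ff Pr S m) -
        (δ / 2) ^ 2 * (∑ m ∈ Icc 1 x, NN Pr x m) - x =
        ∑ m ∈ Icc 1 x, (2 * (δ / 2) * ff Pr S m - (δ / 2) ^ 2 * NN Pr x m - 1) := by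
      rw [sum_sub_distrib, sum_sub_distrib, ← mul_sum, ← mul_sum]
      simp
    rw [e]
    refine sum_le_sum fun m _ => ?_
    have hle := ff_le_NN Pr S x hS m
    rw [ff_nat, NN_nat] at hle ⊢
    exact tangent (δ / 2) _ _ (by exact_mod_cast hle)
  have h5 : (x : ℝ) ≤ ∑ m ∈ Icc 1 x, (ff Pr S m ^ 2 - ff Pr S m) := by
    refine le_trans ?_ h4
    have a1 : 2 * (δ / 2) * (L * (δ * x) / 2) ≤ 2 * (δ / 2) * (∑ m ∈ Icc 1 x, ff Pr S m) :=
      mul_le_mul_of_nonneg_left h2 (by positivity)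
    have a2 : (δ / 2) ^ 2 * (∑ m ∈ Icc 1 x, NN Pr x m) ≤ (δ / 2) ^ 2 * (x * L) :=
      mul_le_mul_of_nonneg_left h3 (by positivity)
    have a3 : 16 * (x : ℝ) ≤ (L * δ ^ 2) * x := mul_le_mul_of_nonneg_right hL16 (by linarith)
    nlinarith
  by_contra hcon
  push Not at hcon
  have h6 : ∑ pq ∈ Pr.offDiag,
      (((Icc 1 x).filter (fun m => pq.1 * m ∈ S ∧ pq.2 * m ∈ S)).card : ℝ) ≤
      ∑ pq ∈ Pr.offDiag, (1 / ((Pr.card : ℝ) ^ 2 + 1) * x) := by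
    refine sum_le_sum fun pq hpq => ?_
    rw [mem_offDiag] at hpq
    exact (hcon pq.1 hpq.1 pq.2 hpq.2.1 hpq.2.2).le
  rw [← ff_sq, sum_const, nsmul_eq_mul] at h6
  have h7 : (Pr.offDiag.card : ℝ) ≤ (Pr.card : ℝ) ^ 2 := by
    rw [offDiag_card]
    have : Pr.card * Pr.card - Pr.card ≤ Pr.card * Pr.card := Nat.sub_le _ _
    calc ((Pr.card * Pr.card - Pr.card : ℕ) : ℝ) ≤ ((Pr.card * Pr.card : ℕ) : ℝ) := by
          exact_mod_cast this
      _ = (Pr.card : ℝ) ^ 2 := by push_cast; ring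
  have h8 : (Pr.offDiag.card : ℝ) * (1 / ((Pr.card : ℝ) ^ 2 + 1) * x) ≤
      (Pr.card : ℝ) ^ 2 * (1 / ((Pr.card : ℝ) ^ 2 + 1) * x) :=
    mul_le_mul_of_nonneg_right h7 (by positivity)
  have h9 : (Pr.card : ℝ) ^ 2 * (1 / ((Pr.card : ℝ) ^ 2 + 1) * x) =
      x * ((Pr.card : ℝ) ^ 2 / ((Pr.card : ℝ) ^ 2 + 1)) := by ring
  have h10 : (Pr.card : ℝ) ^ 2 / ((Pr.card : ℝ) ^ 2 + 1) < 1 := by
    rw [div_lt_one (by linarith)]; linarith
  have h11 : (x : ℝ) * ((Pr.card : ℝ) ^ 2 / ((Pr.card : ℝ) ^ 2 + 1)) < x * 1 :=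
    mul_lt_mul_of_pos_left h10 (by linarith)
  linarith

end Pool.Agent.H84.BF
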