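import Pool.Agent.H72.BF.Targets2

/-!
Module EVP of the board bf_modules: evaluation of sequences of integer polynomials.
-/

open Polynomial Finset Filter
open Pool.Agent.H72.BF

namespace Pool.Agent.H84.BF

theorem evp : T_EVP := by
  classical
  intro H P σ _ d c Q hdeg hcoef
  have hfin : {m : σ →₀ ℕ | m.degree ≤ d}.Finite := Finsupp.finite_of_degree_le d
  set S : Finset (σ →₀ ℕ) := hfin.toFinset with hS
  have hmemS : ∀ m : σ →₀ ℕ, m ∈ S ↔ m.degree ≤ d := by
    intro m
    rw [hS, Set.Finite.mem_toFinset, Set.mem_setOf_eq]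
  have hbd : ∀ m : σ →₀ ℕ, P.Bd (fun j => (Q j).coeff m) := fun m =>
    P.bd_of_le c fun j => hcoef j m
  have hzero : ∀ m : σ →₀ ℕ, m ∉ S → ∀ j, (Q j).coeff m = 0 := by
    intro m hm j
    apply MvPolynomial.coeff_eq_zero_of_totalDegree_lt
    rw [hmemS] at hm
    have h1 : m.degree = ∑ i ∈ m.support, m i := rfl
    have := hdeg j
    omega
  let Q' : MvPolynomial σ P.kk := ∑ m ∈ S,
    MvPolynomial.monomial m (⟨P.evZ (fun j => (Q j).coeff m), P.evZ_mem (hbd m)⟩ : P.kk)
  refine ⟨Q', ?_, ?_, ?_⟩
  · apply MvPolynomial.totalDegree_finsetSum_le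
    intro m hm
    refine (MvPolynomial.totalDegree_monomial_le _ _).trans ?_
    exact (hmemS m).1 hm
  · intro m
    have h1 : Q'.coeff m = ∑ m' ∈ S, if m' = m then
        (⟨P.evZ (fun j => (Q j).coeff m'), P.evZ_mem (hbd m')⟩ : P.kk) else 0 := by
      change MvPolynomial.coeff m (∑ m' ∈ S, _) = _
      rw [MvPolynomial.coeff_sum]
      refine Finset.sum_congr rfl fun m' _ => ?_
      rw [MvPolynomial.coeff_monomial]
    rw [h1, Finset.sum_ite_eq' S m]
    split_ifs with h
    · rfl
    · have h2 : (fun j => (Q j).coeff m) = fun _ => (0 : ℤ) := by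
        funext j
        exact hzero m h j
      rw [h2, P.evZ_const 0]
      simp
  · intro x hx
    have hterm : ∀ m : σ →₀ ℕ, (fun j => (((Q j).coeff m : ℤ) : ℂ)) *
        ∏ i : σ, (fun j => x j i) ^ (m i) ∈ P.O := by
      intro m
      exact P.O.mul_mem (hbd m) (P.O.prod_mem fun i _ => P.O.pow_mem (hx i) _)
    have hseq : (fun j => MvPolynomial.aeval (x j) (Q j)) = ∑ m ∈ S,
        (fun j => (((Q j).coeff m : ℤ) : ℂ)) * ∏ i : σ, (fun j => x j i) ^ (m i) := by
      funext j
      rw [MvPolynomial.aeval_def, MvPolynomial.eval₂_eq', Finset.sum_apply]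
      have hsub : (Q j).support ⊆ S := by
        intro m hm
        by_contra h
        exact (MvPolynomial.mem_support_iff.1 hm) (hzero m h j)
      rw [Finset.sum_subset hsub (by
        intro m _ hm
        rw [MvPolynomial.notMem_support_iff.1 hm]
        simp)]
      refine Finset.sum_congr rfl fun m _ => ?_
      simp [Finset.prod_apply]
    constructor
    · rw [hseq]
      exact P.O.sum_mem fun m _ => hterm m
    · rw [hseq, P.ev_sum S _ (fun m _ => hterm m)]
      change MvPolynomial.aeval _ (∑ m ∈ S, _) = _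
      rw [map_sum]
      refine Finset.sum_congr rfl fun m _ => ?_
      rw [MvPolynomial.aeval_monomial, P.ev_mul (hbd m) (P.O.prod_mem fun i _ =>
        P.O.pow_mem (hx i) _), P.ev_prod _ _ (fun i _ => P.O.pow_mem (hx i) _),
        Finsupp.prod_fintype _ _ (by simp)]
      congr 1
      refine Finset.prod_congr rfl fun i _ => ?_
      rw [P.ev_pow (hx i)]

end Pool.Agent.H84.BF
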